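import Mathlib

/-!
Algebra for the multi-prime construction: the block form over a finite field and the conic
through five points of a sphere.
-/

set_option autoImplicit false

namespace Pool.Agent.MP_45c2e2_co.TT

section Block

variable {L : Type*} [Field L]

/-- The block form `x ^ 2 - η y ^ 2`. -/
def qf (η : L) (x y : L) : L := x ^ 2 - η * y ^ 2

lemma qf_eq_zero {η : L} (hη : ¬ IsSquare η) {x y : L} (h : qf η x y = 0) : x = 0 ∧ y = 0 := by
  unfold qf at h
  by_cases hy : y = 0
  · subst hy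
    refine ⟨?_, rfl⟩
    have : x ^ 2 = 0 := by linear_combination h
    exact pow_eq_zero_iff (two_ne_zero) |>.1 this
  · exfalso
    apply hη
    refine ⟨x / y, ?_⟩
    field_simp
    linear_combination -h

/-- The polar form. -/
def pf (η : L) (x y x' y' : L) : L := 2 * (x * x' - η * (y * y'))

/-- If the form restricted to the span of `u, v` is proportional to a form with nonzero square
discriminant, then `u = v = 0`. -/
lemma block_zero {η : L} (hη : ¬ IsSquare η) (h2 : (2 : L) ≠ 0) {u1 u2 v1 v2 A B C s : L}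
    (hs : s ^ 2 = B ^ 2 - 4 * A * C) (hs0 : s ≠ 0)
    (h1 : qf η u1 u2 * B = pf η u1 u2 v1 v2 * A)
    (h3 : qf η u1 u2 * C = qf η v1 v2 * A)
    (h4 : pf η u1 u2 v1 v2 * C = qf η v1 v2 * B) :
    (u1 = 0 ∧ u2 = 0) ∧ (v1 = 0 ∧ v2 = 0) := by
  by_cases hA : A = 0
  · subst hA
    have hB : B ≠ 0 := by
      rintro rfl
      apply hs0
      have : s ^ 2 = 0 := by rw [hs]; ring
      exact pow_eq_zero_iff (two_ne_zero) |>.1 this
    have e1 : qf η u1 u2 = 0 := by
      have : qf η u1 u2 * B = 0 := by rw [h1]; ring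
      rcases mul_eq_zero.1 this with h | h
      · exact h
      · exact absurd h hB
    obtain ⟨rfl, rfl⟩ := qf_eq_zero hη e1
    have e2 : qf η v1 v2 = 0 := by
      have : qf η v1 v2 * B = 0 := by
        rw [← h4]; unfold pf; ring
      rcases mul_eq_zero.1 this with h | h
      · exact h
      · exact absurd h hB
    exact ⟨⟨rfl, rfl⟩, qf_eq_zero hη e2⟩
  · have key : ∀ t : L, t ^ 2 = B ^ 2 - 4 * A * C →
        qf η ((-B + t) * u1 + 2 * A * v1) ((-B + t) * u2 + 2 * A * v2) = 0 := by
      intro t ht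
      have e : qf η ((-B + t) * u1 + 2 * A * v1) ((-B + t) * u2 + 2 * A * v2)
          = (-B + t) ^ 2 * qf η u1 u2 + (-B + t) * 2 * A * pf η u1 u2 v1 v2
            + 4 * A * (A * qf η v1 v2) := by
        unfold qf pf; ring
      rw [e]
      linear_combination (-2 * (-B + t)) * h1 - 4 * A * h3 + qf η u1 u2 * ht
    have k1 := qf_eq_zero hη (key s hs)
    have k2 := qf_eq_zero hη (key (-s) (by rw [neg_sq]; exact hs))
    have hu : ∀ a b : L, (-B + s) * a + 2 * A * b = 0 → (-B + -s) * a + 2 * A * b = 0 →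
        a = 0 ∧ b = 0 := by
      intro a b ha hb
      have e1 : 2 * s * a = 0 := by linear_combination ha - hb
      have e2 : a = 0 := by
        rcases mul_eq_zero.1 e1 with h | h
        · rcases mul_eq_zero.1 h with h | h
          · exact absurd h h2
          · exact absurd h hs0
        · exact h
      subst e2
      refine ⟨rfl, ?_⟩
      have e3 : 2 * A * b = 0 := by linear_combination ha
      rcases mul_eq_zero.1 e3 with h | h
      · rcases mul_eq_zero.1 h with h | h
        · exact absurd h h2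
        · exact absurd h hA
      · exact h
    obtain ⟨a1, a2⟩ := hu _ _ k1.1 k2.1
    obtain ⟨b1, b2⟩ := hu _ _ k1.2 k2.2
    exact ⟨⟨a1, b1⟩, ⟨a2, b2⟩⟩

/-- Membership of the fourth point gives one linear relation between the values of the form. -/
lemma block_rel {η q a b x1 x2 y u1 u2 w v1 v2 z p1 p2 r : L}
    (m1 : y = qf η x1 x2) (m2 : y + w = qf η (x1 + u1) (x2 + u2))
    (m3 : y + z = qf η (x1 + v1) (x2 + v2)) (m4 : y + r = qf η (x1 + p1) (x2 + p2))
    (e1 : q * p1 = a * u1 + b * v1) (e2 : q * p2 = a * u2 + b * v2)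
    (e3 : q * r = a * w + b * z) :
    a * (a - q) * qf η u1 u2 + a * b * pf η u1 u2 v1 v2 + b * (b - q) * qf η v1 v2 = 0 := by
  have hw : w = 2 * (x1 * u1 - η * (x2 * u2)) + qf η u1 u2 := by
    have : w = (y + w) - y := by ring
    rw [this, m2, m1]; unfold qf; ring
  have hz : z = 2 * (x1 * v1 - η * (x2 * v2)) + qf η v1 v2 := by
    have : z = (y + z) - y := by ring
    rw [this, m3, m1]; unfold qf; ring
  have hr : r = 2 * (x1 * p1 - η * (x2 * p2)) + qf η p1 p2 := by
    have : r = (y + r) - y := by ring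
    rw [this, m4, m1]; unfold qf; ring
  have h5 : q * (q * r) = 2 * q * (x1 * (q * p1) - η * (x2 * (q * p2)))
      + qf η (q * p1) (q * p2) := by
    rw [hr]; unfold qf; ring
  rw [e1, e2, e3, hw, hz] at h5
  unfold qf pf at *
  linear_combination -h5

/-- Two relations with independent coefficient vectors determine the values of the form up to a
factor. -/
lemma cross_zero {X1 X2 X3 G1 G2 G3 w1 w2 w3 w1' w2' w3' : L}
    (hX : w1 * X1 + w2 * X2 + w3 * X3 = 0) (hX' : w1' * X1 + w2' * X2 + w3' * X3 = 0)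
    (hG : w1 * G1 + w2 * G2 + w3 * G3 = 0) (hG' : w1' * G1 + w2' * G2 + w3' * G3 = 0)
    (hA : w2 * w3' - w3 * w2' ≠ 0) :
    X1 * G2 = X2 * G1 ∧ X1 * G3 = X3 * G1 ∧ X2 * G3 = X3 * G2 := by
  -- X2 * A = X1 * B, X3 * A = X1 * C with B = w3 w1' - w1 w3', C = w1 w2' - w2 w1'
  have a2 : X2 * (w2 * w3' - w3 * w2') = X1 * (w3 * w1' - w1 * w3') := by
    linear_combination w3' * hX - w3 * hX'
  have a3 : X3 * (w2 * w3' - w3 * w2') = X1 * (w1 * w2' - w2 * w1') := by
    linear_combination w2 * hX' - w2' * hX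
  have b2 : G2 * (w2 * w3' - w3 * w2') = G1 * (w3 * w1' - w1 * w3') := by
    linear_combination w3' * hG - w3 * hG'
  have b3 : G3 * (w2 * w3' - w3 * w2') = G1 * (w1 * w2' - w2 * w1') := by
    linear_combination w2 * hG' - w2' * hG
  refine ⟨?_, ?_, ?_⟩
  · refine mul_right_cancel₀ hA ?_
    linear_combination X1 * b2 - G1 * a2
  · refine mul_right_cancel₀ hA ?_
    linear_combination X1 * b3 - G1 * a3
  · refine mul_right_cancel₀ (mul_ne_zero hA hA) ?_
    linear_combination (X2 * (w2 * w3' - w3 * w2')) * b3 + (G1 * (w1 * w2' - w2 * w1')) * a2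
      - (X3 * (w2 * w3' - w3 * w2')) * b2 - (G1 * (w3 * w1' - w1 * w3')) * a3

end Block

section Conic

/-- The first coordinate of the cross product of the two coefficient vectors does not vanish. -/
lemma conic_ne {q a b a' b' g1 g2 g3 : ℤ} (hq : q ≠ 0) (h1 : 0 < g1) (h3 : 0 < g3)
    (h2 : g2 ^ 2 < g1 * g3)
    (e : a * (a - q) * g1 + a * b * (2 * g2) + b * (b - q) * g3 = 0)
    (e' : a' * (a' - q) * g1 + a' * b' * (2 * g2) + b' * (b' - q) * g3 = 0)
    (n1 : ¬ (a = 0 ∧ b = 0)) (n2 : ¬ (a = q ∧ b = 0)) (n3 : ¬ (a = 0 ∧ b = q))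
    (n1' : ¬ (a' = 0 ∧ b' = 0)) (n2' : ¬ (a' = q ∧ b' = 0)) (n3' : ¬ (a' = 0 ∧ b' = q))
    (n : ¬ (a = a' ∧ b = b')) :
    (a * b) * (b' * (b' - q)) - (b * (b - q)) * (a' * b') ≠ 0 := by
  have pos : ∀ a b : ℤ, a * (a - q) * g1 + a * b * (2 * g2) + b * (b - q) * g3 = 0 →
      ¬ (a = 0 ∧ b = 0) → ¬ (a = q ∧ b = 0) → ¬ (a = 0 ∧ b = q) → a ≠ 0 ∧ b ≠ 0 := by
    intro a b e n1 n2 n3
    constructor
    · rintro rfl
      have : b * (b - q) * g3 = 0 := by linear_combination e
      rcases mul_eq_zero.1 this with h | h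
      · rcases mul_eq_zero.1 h with h | h
        · exact n1 ⟨rfl, h⟩
        · exact n3 ⟨rfl, by linarith⟩
      · omega
    · rintro rfl
      have : a * (a - q) * g1 = 0 := by linear_combination e
      rcases mul_eq_zero.1 this with h | h
      · rcases mul_eq_zero.1 h with h | h
        · exact n1 ⟨h, rfl⟩
        · exact n2 ⟨by linarith, rfl⟩
      · omega
  obtain ⟨ha, hb⟩ := pos a b e n1 n2 n3
  obtain ⟨ha', hb'⟩ := pos a' b' e' n1' n2' n3'
  intro hA
  -- the other coordinates vanish as well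
  have hC : g1 * ((a * (a - q)) * (a' * b') - (a * b) * (a' * (a' - q))) = 0 := by
    have : g1 * ((a * (a - q)) * (a' * b') - (a * b) * (a' * (a' - q)))
        = g3 * ((a * b) * (b' * (b' - q)) - (b * (b - q)) * (a' * b')) := by
      linear_combination (a' * b') * e - (a * b) * e'
    rw [this, hA, mul_zero]
  have hC' := (mul_eq_zero.1 hC).resolve_left h1.ne'
  have i1 : a * (b' - q) = (b - q) * a' := by
    have : (b * b') * (a * (b' - q) - (b - q) * a') = 0 := by linear_combination hA
    have := (mul_eq_zero.1 this).resolve_left (mul_ne_zero hb hb')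
    linarith
  have i2 : (a - q) * b' = b * (a' - q) := by
    have : (a * a') * ((a - q) * b' - b * (a' - q)) = 0 := by linear_combination hC'
    have := (mul_eq_zero.1 this).resolve_left (mul_ne_zero ha ha')
    linarith
  have i3 : a + b = a' + b' := by
    have : q * ((a' + b') - (a + b)) = 0 := by linear_combination i1 - i2
    have := (mul_eq_zero.1 this).resolve_left hq
    linarith
  have i4 : (a + b - q) * (a - a') = 0 := by
    linear_combination i1 + a * i3
  rcases mul_eq_zero.1 i4 with h | h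
  · -- a + b = q
    have hs : q = a + b := by linarith
    subst hs
    have h5 : (a * b) * (g1 - 2 * g2 + g3) = 0 := by linear_combination -e
    have h6 := (mul_eq_zero.1 h5).resolve_left (mul_ne_zero ha hb)
    nlinarith [sq_nonneg (g1 - g3)]
  · exact n ⟨by linarith, by linarith⟩

end Conic

end Pool.Agent.MP_45c2e2_co.TT
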