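import Mathlib
import Pool.Agent.Lib.MP_45c2e2_co.TT.Alg

/-!
One block: a map from pairs of integer pairs to integer pairs, defined modulo a prime, such that
five coplanar points on its graph have equal images modulo the prime.
-/

set_option autoImplicit false

namespace Pool.Agent.MP_45c2e2_co.TT

open Module

section Gal

variable (l : ℕ) [Fact l.Prime]

/-- The field with `l ^ 2` elements. -/
abbrev LF : Type := GaloisField l 2

noncomputable instance : Fintype (LF l) := Fintype.ofFinite _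

lemma card_LF : Fintype.card (LF l) = l ^ 2 := by
  rw [← Nat.card_eq_fintype_card]
  exact GaloisField.card l 2 (by norm_num)

noncomputable def bas : Basis (Fin 2) (ZMod l) (LF l) :=
  finBasisOfFinrankEq (ZMod l) (LF l) (GaloisField.finrank l (by norm_num))

/-- The integer pair `n` read as an element of the field. -/
noncomputable def emb (n : Fin 2 → ℤ) : LF l := ∑ r, ((n r : ZMod l)) • bas l r

lemma emb_add (n m : Fin 2 → ℤ) : emb l (fun r => n r + m r) = emb l n + emb l m := by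
  unfold emb
  rw [← Finset.sum_add_distrib]
  refine Finset.sum_congr rfl fun r _ => ?_
  rw [Int.cast_add, add_smul]

lemma emb_sub (n m : Fin 2 → ℤ) : emb l (fun r => n r - m r) = emb l n - emb l m := by
  unfold emb
  rw [← Finset.sum_sub_distrib]
  refine Finset.sum_congr rfl fun r _ => ?_
  rw [Int.cast_sub, sub_smul]

lemma emb_mul (q : ℤ) (n : Fin 2 → ℤ) : emb l (fun r => q * n r) = (q : LF l) * emb l n := by
  unfold emb
  rw [Finset.mul_sum]
  refine Finset.sum_congr rfl fun r _ => ?_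
  rw [Int.cast_mul, mul_smul, Algebra.smul_def, map_intCast]

lemma emb_eq_zero {n : Fin 2 → ℤ} (h : emb l n = 0) (r : Fin 2) : (l : ℤ) ∣ n r := by
  have := Fintype.linearIndependent_iff.1 (bas l).linearIndependent (fun r => (n r : ZMod l)) h r
  exact (ZMod.intCast_zmod_eq_zero_iff_dvd (n r) l).1 this

lemma emb_surj (z : LF l) : ∃ n : Fin 2 → ℤ, (∀ r, 1 ≤ n r ∧ n r ≤ l) ∧ emb l n = z := by
  have hl : 0 < l := (Fact.out : l.Prime).pos
  have : NeZero l := ⟨hl.ne'⟩
  refine ⟨fun r => (((bas l).repr z r - 1 : ZMod l).val : ℤ) + 1, ?_, ?_⟩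
  · intro r
    have := ZMod.val_lt ((bas l).repr z r - 1 : ZMod l)
    constructor
    · have := Int.natCast_nonneg ((bas l).repr z r - 1 : ZMod l).val
      linarith
    · have : ((((bas l).repr z r - 1 : ZMod l).val : ℕ) : ℤ) < (l : ℤ) := by exact_mod_cast this
      linarith
  · unfold emb
    conv_rhs => rw [← (bas l).sum_repr z]
    refine Finset.sum_congr rfl fun r _ => ?_
    congr 1
    rw [Int.cast_add, Int.cast_natCast, ZMod.natCast_zmod_val]
    simp

lemma ringChar_LF : ringChar (LF l) = l := ringChar.eq (LF l) l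

lemma two_ne (h2 : 2 < l) : (2 : LF l) ≠ 0 := by
  have h := (CharP.cast_eq_zero_iff (LF l) l 2).not.2 (fun h => by
    have := Nat.le_of_dvd (by norm_num) h
    omega)
  exact_mod_cast h

lemma int_ne {D : ℤ} (hD : ¬ (l : ℤ) ∣ D) : (D : LF l) ≠ 0 :=
  (CharP.intCast_eq_zero_iff (LF l) l D).not.2 hD

lemma exists_sqrt (h2 : 2 < l) {D : ℤ} (hD : ¬ (l : ℤ) ∣ D) : ∃ s : LF l, s ^ 2 = D ∧ s ≠ 0 := by
  have hp : l.Prime := Fact.out
  have hc : ringChar (LF l) ≠ 2 := by
    rw [ringChar_LF]; omega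
  have hD0 : (D : LF l) ≠ 0 := int_ne l hD
  have hodd : Odd l := hp.odd_of_ne_two (by omega)
  obtain ⟨k, hk⟩ := hodd
  have hsq : IsSquare (D : LF l) := by
    rw [FiniteField.isSquare_iff hc hD0, card_LF]
    have e : l ^ 2 / 2 = (l - 1) * (k + 1) := by
      have : l ^ 2 = 2 * ((l - 1) * (k + 1)) + 1 := by
        have : l - 1 = 2 * k := by omega
        rw [this, hk]; ring
      omega
    rw [e, pow_mul]
    have : (D : LF l) ^ (l - 1) = 1 := by
      have h0 : (D : ZMod l) ≠ 0 := by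
        intro h
        exact hD ((ZMod.intCast_zmod_eq_zero_iff_dvd D l).1 h)
      have h1 := ZMod.pow_card_sub_one_eq_one h0
      have h3 := congrArg (algebraMap (ZMod l) (LF l)) h1
      simpa using h3
    rw [this, one_pow]
  obtain ⟨s, hs⟩ := hsq
  refine ⟨s, by rw [hs]; ring, ?_⟩
  rintro rfl
  apply hD0
  rw [hs]; ring

lemma exists_eta (h2 : 2 < l) : ∃ η : LF l, ¬ IsSquare η :=
  FiniteField.exists_nonsquare (by rw [ringChar_LF]; omega)

end Gal

/-- One block. -/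
lemma block_exists (l : ℕ) [Fact l.Prime] (h2 : 2 < l) :
    ∃ Y : (Fin 2 → Fin 2 → ℤ) → (Fin 2 → ℤ), (∀ x r, 1 ≤ Y x r ∧ Y x r ≤ l) ∧
      ∀ (x1 x2 x3 x4 x5 : Fin 2 → Fin 2 → ℤ) (q a b a' b' g1 g2 g3 : ℤ),
        ¬ (l : ℤ) ∣ q → ¬ (l : ℤ) ∣ ((a * b) * (b' * (b' - q)) - (b * (b - q)) * (a' * b')) →
        ¬ (l : ℤ) ∣ g1 * g3 - g2 ^ 2 →
        a * (a - q) * g1 + a * b * (2 * g2) + b * (b - q) * g3 = 0 →
        a' * (a' - q) * g1 + a' * b' * (2 * g2) + b' * (b' - q) * g3 = 0 →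
        (∀ c r, q * (x4 c r - x1 c r) = a * (x2 c r - x1 c r) + b * (x3 c r - x1 c r)) →
        (∀ c r, q * (x5 c r - x1 c r) = a' * (x2 c r - x1 c r) + b' * (x3 c r - x1 c r)) →
        (∀ r, q * (Y x4 r - Y x1 r) = a * (Y x2 r - Y x1 r) + b * (Y x3 r - Y x1 r)) →
        (∀ r, q * (Y x5 r - Y x1 r) = a' * (Y x2 r - Y x1 r) + b' * (Y x3 r - Y x1 r)) →
        ∀ c r, (l : ℤ) ∣ (x2 c r - x1 c r) := by
  obtain ⟨η, hη⟩ := exists_eta l h2
  choose Y hY1 hY2 using fun x : Fin 2 → Fin 2 → ℤ => emb_surj l (qf η (emb l (x 0)) (emb l (x 1)))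
  refine ⟨Y, hY1, ?_⟩
  intro x1 x2 x3 x4 x5 q a b a' b' g1 g2 g3 hq hA hg hG hG' h4 h5 y4 y5
  -- field versions
  have tr : ∀ (n1 n2 n3 n4 : Fin 2 → ℤ) (a b : ℤ),
      (∀ r, q * (n4 r - n1 r) = a * (n2 r - n1 r) + b * (n3 r - n1 r)) →
      (q : LF l) * (emb l n4 - emb l n1)
        = (a : LF l) * (emb l n2 - emb l n1) + (b : LF l) * (emb l n3 - emb l n1) := by
    intro n1 n2 n3 n4 a b h
    rw [← emb_sub, ← emb_sub, ← emb_sub, ← emb_mul, ← emb_mul, ← emb_mul, ← emb_add]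
    congr 1
    funext r
    exact h r
  have rel : ∀ (x4 : Fin 2 → Fin 2 → ℤ) (a b : ℤ),
      (∀ c r, q * (x4 c r - x1 c r) = a * (x2 c r - x1 c r) + b * (x3 c r - x1 c r)) →
      (∀ r, q * (Y x4 r - Y x1 r) = a * (Y x2 r - Y x1 r) + b * (Y x3 r - Y x1 r)) →
      (a : LF l) * (a - q) * qf η (emb l (x2 0) - emb l (x1 0)) (emb l (x2 1) - emb l (x1 1))
      + a * b * pf η (emb l (x2 0) - emb l (x1 0)) (emb l (x2 1) - emb l (x1 1))
          (emb l (x3 0) - emb l (x1 0)) (emb l (x3 1) - emb l (x1 1))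
      + b * (b - q) * qf η (emb l (x3 0) - emb l (x1 0)) (emb l (x3 1) - emb l (x1 1)) = 0 := by
    intro x4 a b h y
    refine block_rel (x1 := emb l (x1 0)) (x2 := emb l (x1 1)) (y := emb l (Y x1))
      (w := emb l (Y x2) - emb l (Y x1)) (z := emb l (Y x3) - emb l (Y x1))
      (r := emb l (Y x4) - emb l (Y x1)) (p1 := emb l (x4 0) - emb l (x1 0))
      (p2 := emb l (x4 1) - emb l (x1 1)) ?_ ?_ ?_ ?_ ?_ ?_ ?_
    · exact hY2 x1
    · rw [add_sub_cancel, add_sub_cancel, add_sub_cancel]; exact hY2 x2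
    · rw [add_sub_cancel, add_sub_cancel, add_sub_cancel]; exact hY2 x3
    · rw [add_sub_cancel, add_sub_cancel, add_sub_cancel]; exact hY2 x4
    · exact tr _ _ _ _ a b (h 0)
    · exact tr _ _ _ _ a b (h 1)
    · exact tr _ _ _ _ a b y
  have r4 := rel x4 a b h4 y4
  have r5 := rel x5 a' b' h5 y5
  have hAL : (((a : LF l) * b) * (b' * (b' - q)) - (b * (b - q)) * (a' * b')) ≠ 0 := by
    have := int_ne l hA
    push_cast at this
    exact this
  have hGL : (a : LF l) * (a - q) * g1 + a * b * (2 * g2) + b * (b - q) * g3 = 0 := by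
    have := congrArg (fun z : ℤ => (z : LF l)) hG
    push_cast at this
    exact this
  have hGL' : (a' : LF l) * (a' - q) * g1 + a' * b' * (2 * g2) + b' * (b' - q) * g3 = 0 := by
    have := congrArg (fun z : ℤ => (z : LF l)) hG'
    push_cast at this
    exact this
  obtain ⟨c1, c2, c3⟩ := cross_zero r4 r5 hGL hGL' hAL
  obtain ⟨s, hs, hs0⟩ := exists_sqrt l h2 (D := 4 * (g2 ^ 2 - g1 * g3)) (by
    intro h
    have hp : Prime (l : ℤ) := Nat.prime_iff_prime_int.1 (Fact.out : l.Prime)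
    rcases hp.dvd_or_dvd h with h | h
    · have h4 : l ∣ 4 := by exact_mod_cast h
      have h5 : l ∣ 2 ^ 2 := by simpa using h4
      have h6 := (Nat.prime_dvd_prime_iff_eq (Fact.out : l.Prime) Nat.prime_two).1
        ((Fact.out : l.Prime).dvd_of_dvd_pow h5)
      omega
    · exact hg ((dvd_neg.2 h).trans (by rw [neg_sub])))
  have z := block_zero hη (two_ne l h2) (A := (g1 : LF l)) (B := 2 * (g2 : LF l))
    (C := (g3 : LF l)) (s := s) (by rw [hs]; push_cast; ring) hs0 c1 c2 c3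
  intro c r
  have : emb l (fun r => x2 c r - x1 c r) = 0 := by
    rw [emb_sub]
    fin_cases c
    · exact z.1.1
    · exact z.1.2
  exact emb_eq_zero l this r

end Pool.Agent.MP_45c2e2_co.TT
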