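import Mathlib

/-!
Counting lemmas: greedy codes, Hamming balls, primes dividing a bounded integer, primes in dyadic
intervals, fibres.
-/

set_option autoImplicit false

namespace Pool.Agent.MP_45c2e2_co.TT

lemma exists_code {α : Type*} [DecidableEq α] (S : Finset α) (R : α → α → Prop) [DecidableRel R]
    (hrefl : ∀ a, R a a) (hsymm : ∀ a b, R a b → R b a) (D : ℕ)
    (hD : ∀ a ∈ S, (S.filter (R a)).card ≤ D) :
    ∃ T ⊆ S, (∀ a ∈ T, ∀ b ∈ T, a ≠ b → ¬ R a b) ∧ S.card ≤ D * T.card := by
  classical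
  let F : Finset (Finset α) := S.powerset.filter (fun T => ∀ a ∈ T, ∀ b ∈ T, a ≠ b → ¬ R a b)
  have hF : F.Nonempty := ⟨∅, by simp [F]⟩
  obtain ⟨T, hT, hmax⟩ := F.exists_max_image Finset.card hF
  rw [Finset.mem_filter, Finset.mem_powerset] at hT
  refine ⟨T, hT.1, hT.2, ?_⟩
  have hcov : S ⊆ T.biUnion (fun t => S.filter (R t)) := by
    intro a ha
    rw [Finset.mem_biUnion]
    by_contra hcon
    push Not at hcon
    have hno : ∀ t ∈ T, ¬ R t a := by
      intro t ht h
      exact hcon t ht (Finset.mem_filter.2 ⟨ha, h⟩)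
    have haT : a ∉ T := fun h => hno a h (hrefl a)
    have hins : insert a T ∈ F := by
      rw [Finset.mem_filter, Finset.mem_powerset]
      refine ⟨Finset.insert_subset ha hT.1, ?_⟩
      intro x hx y hy hxy
      rw [Finset.mem_insert] at hx hy
      rcases hx with rfl | hx <;> rcases hy with rfl | hy
      · exact absurd rfl hxy
      · exact fun h => hno y hy (hsymm _ _ h)
      · exact hno x hx
      · exact hT.2 x hx y hy hxy
    have := hmax _ hins
    rw [Finset.card_insert_of_notMem haT] at this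
    omega
  calc S.card ≤ (T.biUnion (fun t => S.filter (R t))).card := Finset.card_le_card hcov
    _ ≤ ∑ t ∈ T, (S.filter (R t)).card := Finset.card_biUnion_le
    _ ≤ ∑ _t ∈ T, D := Finset.sum_le_sum fun t ht => hD t (hT.1 ht)
    _ = D * T.card := by rw [Finset.sum_const, smul_eq_mul, mul_comm]

lemma ball_card {β : Type*} [Fintype β] [DecidableEq β] [Nonempty β] (k t : ℕ)
    (x : Fin k → β) (S : Finset (Fin k → β)) :
    (S.filter (fun y => hammingDist x y ≤ t)).card ≤ 2 ^ k * Fintype.card β ^ t := by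
  classical
  have hcov : S.filter (fun y => hammingDist x y ≤ t) ⊆
      ((Finset.univ : Finset (Fin k)).powerset.filter (fun J => J.card ≤ t)).biUnion
        (fun J => Fintype.piFinset (fun j => if j ∈ J then (Finset.univ : Finset β) else {x j})) := by
    intro y hy
    rw [Finset.mem_filter] at hy
    rw [Finset.mem_biUnion]
    refine ⟨Finset.univ.filter (fun j => x j ≠ y j), ?_, ?_⟩
    · rw [Finset.mem_filter]
      exact ⟨Finset.mem_powerset.2 (Finset.filter_subset _ _), hy.2⟩
    · rw [Fintype.mem_piFinset]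
      intro j
      by_cases h : x j = y j
      · simp [h]
      · simp [h]
  have hone : 1 ≤ Fintype.card β := Fintype.card_pos
  calc (S.filter (fun y => hammingDist x y ≤ t)).card
      ≤ _ := Finset.card_le_card hcov
    _ ≤ ∑ J ∈ (Finset.univ : Finset (Fin k)).powerset.filter (fun J => J.card ≤ t),
        (Fintype.piFinset (fun j => if j ∈ J then (Finset.univ : Finset β) else {x j})).card :=
        Finset.card_biUnion_le
    _ ≤ ∑ _J ∈ (Finset.univ : Finset (Fin k)).powerset.filter (fun J => J.card ≤ t),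
        Fintype.card β ^ t := by
        refine Finset.sum_le_sum fun J hJ => ?_
        rw [Fintype.card_piFinset]
        have e : ∀ j : Fin k, (if j ∈ J then (Finset.univ : Finset β) else {x j}).card
            = if j ∈ J then Fintype.card β else 1 := by
          intro j
          split_ifs
          · rfl
          · simp
        rw [Finset.prod_congr rfl fun j _ => e j, Finset.prod_ite_mem, Finset.univ_inter,
          Finset.prod_const]
        exact Nat.pow_le_pow_right hone (Finset.mem_filter.1 hJ).2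
    _ ≤ ∑ _J ∈ (Finset.univ : Finset (Fin k)).powerset, Fintype.card β ^ t :=
        Finset.sum_le_sum_of_subset (Finset.filter_subset _ _)
    _ = 2 ^ k * Fintype.card β ^ t := by
        rw [Finset.sum_const, Finset.card_powerset, smul_eq_mul, Finset.card_univ, Fintype.card_fin]

lemma bad_count {k : ℕ} (l : Fin k → ℕ) (hp : ∀ j, (l j).Prime) (hinj : Function.Injective l)
    (M t : ℕ) (hM : 1 ≤ M) (hl : ∀ j, M ≤ l j) (R : ℤ) (hR : R ≠ 0) (hRM : R.natAbs < M ^ (t + 1)) :
    (Finset.univ.filter (fun j => (l j : ℤ) ∣ R)).card ≤ t := by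
  classical
  by_contra hcon
  push Not at hcon
  set J := Finset.univ.filter (fun j => (l j : ℤ) ∣ R) with hJ
  have h1 : ∏ j ∈ J, l j ∣ R.natAbs := by
    have := Finset.prod_primes_dvd (s := J.image l) R.natAbs
      (fun p hp' => by
        obtain ⟨j, -, rfl⟩ := Finset.mem_image.1 hp'
        exact (hp j).prime)
      (fun p hp' => by
        obtain ⟨j, hj, rfl⟩ := Finset.mem_image.1 hp'
        exact Int.natCast_dvd.1 (Finset.mem_filter.1 hj).2)
    rwa [Finset.prod_image (fun a _ b _ h => hinj h)] at this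
  have h2 : ∏ j ∈ J, l j ≤ R.natAbs := Nat.le_of_dvd (Int.natAbs_pos.2 hR) h1
  have h3 : M ^ J.card ≤ ∏ j ∈ J, l j := by
    rw [← Finset.prod_const]
    exact Finset.prod_le_prod' fun j _ => hl j
  have h4 : M ^ (t + 1) ≤ M ^ J.card := Nat.pow_le_pow_right hM (by omega)
  omega

/-- Distinct primes in consecutive dyadic intervals. -/
lemma exists_primes (k M : ℕ) (hM : 1 ≤ M) :
    ∃ l : Fin k → ℕ, (∀ j, (l j).Prime) ∧ Function.Injective l ∧ (∀ j, M < l j) ∧
      ∀ j, l j ≤ M * 2 ^ k := by
  have h : ∀ j : Fin k, ∃ p, p.Prime ∧ M * 2 ^ (j : ℕ) < p ∧ p ≤ 2 * (M * 2 ^ (j : ℕ)) := fun j =>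
    Nat.exists_prime_lt_and_le_two_mul _ (by positivity)
  choose l h1 h2 h3 using h
  have hmono : ∀ i j : Fin k, (i : ℕ) < j → l i < l j := by
    intro i j hij
    calc l i ≤ 2 * (M * 2 ^ (i : ℕ)) := h3 i
      _ = M * 2 ^ ((i : ℕ) + 1) := by ring
      _ ≤ M * 2 ^ (j : ℕ) := Nat.mul_le_mul_left _ (Nat.pow_le_pow_right (by norm_num) hij)
      _ < l j := h2 j
  refine ⟨l, h1, ?_, ?_, ?_⟩
  · intro i j hij
    rcases lt_trichotomy (i : ℕ) j with h | h | h
    · exact absurd hij (hmono i j h).ne
    · exact Fin.ext h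
    · exact absurd hij (hmono j i h).ne'
  · intro j
    exact lt_of_le_of_lt (Nat.le_mul_of_pos_right _ (by positivity)) (h2 j)
  · intro j
    calc l j ≤ 2 * (M * 2 ^ (j : ℕ)) := h3 j
      _ = M * 2 ^ ((j : ℕ) + 1) := by ring
      _ ≤ M * 2 ^ k := Nat.mul_le_mul_left _ (Nat.pow_le_pow_right (by norm_num) j.2)

lemma exists_fibre {α β : Type*} [DecidableEq β] (S : Finset α) (I : Finset β) (f : α → β)
    (h : ∀ a ∈ S, f a ∈ I) (hI : I.Nonempty) :
    ∃ y ∈ I, S.card ≤ I.card * (S.filter (fun a => f a = y)).card := by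
  by_contra hcon
  push Not at hcon
  have h1 := Finset.card_eq_sum_card_fiberwise (f := f) (s := S) (t := I) h
  have h2 : ∑ y ∈ I, I.card * (S.filter (fun a => f a = y)).card < ∑ _y ∈ I, S.card :=
    Finset.sum_lt_sum_of_nonempty hI hcon
  rw [← Finset.mul_sum, ← h1, Finset.sum_const, smul_eq_mul] at h2
  exact lt_irrefl _ h2

end Pool.Agent.MP_45c2e2_co.TT
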