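import Mathlib
import Pool.Agent.Lib.MP_45c2e2_co.Base
import Pool.Agent.Lib.MP_45c2e2_co.TT.Alg

/-!
Five coplanar integer points on a sphere: integer relations.
-/

set_option autoImplicit false

namespace Pool.Agent.MP_45c2e2_co.TT

open Pool.Agent.MP_45c2e2_co

/-- An integer vector as a real vector. -/
def toR {d : ℕ} (P : Fin d → ℤ) : Fin d → ℝ := fun i => (P i : ℝ)

lemma toR_inj {d : ℕ} {P Q : Fin d → ℤ} (h : toR P = toR Q) : P = Q := by
  funext i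
  have := congrFun h i
  unfold toR at this
  exact_mod_cast this

/-- Three distinct points of a sphere are affinely independent. -/
lemma sphere_indep {d : ℕ} (x y z : Fin d → ℝ) (hxy : x ≠ y) (hxz : x ≠ z) (hyz : y ≠ z)
    (h1 : ∑ i, x i ^ 2 = ∑ i, y i ^ 2) (h2 : ∑ i, x i ^ 2 = ∑ i, z i ^ 2) :
    AffineIndependent ℝ ![x, y, z] := by
  refine affInd_three x y z hxy ?_
  intro s hs
  have e1 : ∑ i, (y i - x i) ^ 2 + 2 * ∑ i, x i * (y i - x i) = 0 := by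
    rw [Finset.mul_sum, ← Finset.sum_add_distrib]
    have : ∑ i, ((y i - x i) ^ 2 + 2 * (x i * (y i - x i))) = ∑ i, (y i ^ 2 - x i ^ 2) :=
      Finset.sum_congr rfl fun i _ => by ring
    rw [this, Finset.sum_sub_distrib, ← h1, sub_self]
  have e2 : s ^ 2 * ∑ i, (y i - x i) ^ 2 + 2 * s * ∑ i, x i * (y i - x i) = 0 := by
    rw [Finset.mul_sum, Finset.mul_sum, ← Finset.sum_add_distrib]
    have : ∑ i, (s ^ 2 * (y i - x i) ^ 2 + 2 * s * (x i * (y i - x i)))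
        = ∑ i, (z i ^ 2 - x i ^ 2) := by
      refine Finset.sum_congr rfl fun i _ => ?_
      rw [hs]
      simp only [Pi.add_apply, Pi.smul_apply, Pi.sub_apply, smul_eq_mul]
      ring
    rw [this, Finset.sum_sub_distrib, ← h2, sub_self]
  have pos : 0 < ∑ i, (y i - x i) ^ 2 := by
    obtain ⟨i, hi⟩ := Function.ne_iff.1 hxy
    refine Finset.sum_pos' (fun i _ => sq_nonneg _) ⟨i, Finset.mem_univ i, ?_⟩
    have : y i - x i ≠ 0 := sub_ne_zero.2 (Ne.symm hi)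
    positivity
  have e3 : s * (s - 1) * ∑ i, (y i - x i) ^ 2 = 0 := by
    linear_combination e2 - s * e1
  rcases mul_eq_zero.1 e3 with h | h
  · rcases mul_eq_zero.1 h with h | h
    · exact hxz (by rw [hs, h, zero_smul, add_zero])
    · have : s = 1 := by linarith
      exact hyz (by rw [hs, this, one_smul, add_sub_cancel])
  · exact pos.ne' h

/-- Five distinct coplanar integer points on a sphere, in coordinates. -/
structure Five {d : ℕ} (P1 P2 P3 P4 P5 : Fin d → ℤ) (q a b a' b' g1 g2 g3 : ℤ) : Prop where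
  hq : q ≠ 0
  minor : ∃ i j, q = (P2 i - P1 i) * (P3 j - P1 j) - (P2 j - P1 j) * (P3 i - P1 i) ∧
    a = (P4 i - P1 i) * (P3 j - P1 j) - (P4 j - P1 j) * (P3 i - P1 i) ∧
    b = (P2 i - P1 i) * (P4 j - P1 j) - (P2 j - P1 j) * (P4 i - P1 i) ∧
    a' = (P5 i - P1 i) * (P3 j - P1 j) - (P5 j - P1 j) * (P3 i - P1 i) ∧
    b' = (P2 i - P1 i) * (P5 j - P1 j) - (P2 j - P1 j) * (P5 i - P1 i)
  e4 : ∀ m, q * (P4 m - P1 m) = a * (P2 m - P1 m) + b * (P3 m - P1 m)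
  e5 : ∀ m, q * (P5 m - P1 m) = a' * (P2 m - P1 m) + b' * (P3 m - P1 m)
  hg1 : g1 = ∑ m, (P2 m - P1 m) ^ 2
  hg2 : g2 = ∑ m, (P2 m - P1 m) * (P3 m - P1 m)
  hg3 : g3 = ∑ m, (P3 m - P1 m) ^ 2
  hG : a * (a - q) * g1 + a * b * (2 * g2) + b * (b - q) * g3 = 0
  hG' : a' * (a' - q) * g1 + a' * b' * (2 * g2) + b' * (b' - q) * g3 = 0
  hA : (a * b) * (b' * (b' - q)) - (b * (b - q)) * (a' * b') ≠ 0
  hgram : 0 < g1 * g3 - g2 ^ 2

lemma conic_rel {d : ℕ} (P1 P2 P3 P4 : Fin d → ℤ) (q a b : ℤ)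
    (h2 : ∑ i, P1 i ^ 2 = ∑ i, P2 i ^ 2) (h3 : ∑ i, P1 i ^ 2 = ∑ i, P3 i ^ 2)
    (h4 : ∑ i, P1 i ^ 2 = ∑ i, P4 i ^ 2)
    (e4 : ∀ m, q * (P4 m - P1 m) = a * (P2 m - P1 m) + b * (P3 m - P1 m)) :
    a * (a - q) * ∑ m, (P2 m - P1 m) ^ 2 + a * b * (2 * ∑ m, (P2 m - P1 m) * (P3 m - P1 m))
      + b * (b - q) * ∑ m, (P3 m - P1 m) ^ 2 = 0 := by
  have s : ∀ Q : Fin d → ℤ, ∑ i, P1 i ^ 2 = ∑ i, Q i ^ 2 →
      ∑ i, (Q i - P1 i) ^ 2 + 2 * ∑ i, P1 i * (Q i - P1 i) = 0 := by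
    intro Q hQ
    rw [Finset.mul_sum, ← Finset.sum_add_distrib]
    have : ∑ i, ((Q i - P1 i) ^ 2 + 2 * (P1 i * (Q i - P1 i))) = ∑ i, (Q i ^ 2 - P1 i ^ 2) :=
      Finset.sum_congr rfl fun i _ => by ring
    rw [this, Finset.sum_sub_distrib, ← hQ, sub_self]
  have t2 := s P2 h2
  have t3 := s P3 h3
  have t4 := s P4 h4
  have k1 : q ^ 2 * ∑ i, (P4 i - P1 i) ^ 2 = a ^ 2 * ∑ m, (P2 m - P1 m) ^ 2
      + 2 * a * b * ∑ m, (P2 m - P1 m) * (P3 m - P1 m) + b ^ 2 * ∑ m, (P3 m - P1 m) ^ 2 := by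
    rw [Finset.mul_sum, Finset.mul_sum, Finset.mul_sum, Finset.mul_sum, ← Finset.sum_add_distrib,
      ← Finset.sum_add_distrib]
    refine Finset.sum_congr rfl fun m _ => ?_
    have : q ^ 2 * (P4 m - P1 m) ^ 2 = (q * (P4 m - P1 m)) ^ 2 := by ring
    rw [this, e4 m]; ring
  have k2 : q * ∑ i, P1 i * (P4 i - P1 i) = a * ∑ m, P1 m * (P2 m - P1 m)
      + b * ∑ m, P1 m * (P3 m - P1 m) := by
    rw [Finset.mul_sum, Finset.mul_sum, Finset.mul_sum, ← Finset.sum_add_distrib]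
    refine Finset.sum_congr rfl fun m _ => ?_
    have : q * (P1 m * (P4 m - P1 m)) = P1 m * (q * (P4 m - P1 m)) := by ring
    rw [this, e4 m]; ring
  linear_combination q ^ 2 * t4 - k1 - 2 * q * k2 - q * a * t2 - q * b * t3

lemma sum_sq_comb {d : ℕ} (U V : Fin d → ℤ) (c e : ℤ) :
    ∑ m, (c * V m - e * U m) ^ 2
      = c ^ 2 * ∑ m, V m ^ 2 - 2 * c * e * ∑ m, U m * V m + e ^ 2 * ∑ m, U m ^ 2 := by
  rw [Finset.mul_sum, Finset.mul_sum, Finset.mul_sum, ← Finset.sum_sub_distrib,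
    ← Finset.sum_add_distrib]
  exact Finset.sum_congr rfl fun m _ => by ring

lemma gram_pos {d : ℕ} (U V : Fin d → ℤ) (i j : Fin d) (h : U i * V j - U j * V i ≠ 0) :
    0 < ∑ m, U m ^ 2 ∧ 0 < ∑ m, V m ^ 2 ∧
      0 < (∑ m, U m ^ 2) * (∑ m, V m ^ 2) - (∑ m, U m * V m) ^ 2 := by
  have pU : 0 < ∑ m, U m ^ 2 := by
    by_contra hcon
    have h0 : ∑ m, U m ^ 2 = 0 := le_antisymm (not_lt.1 hcon) (Finset.sum_nonneg fun _ _ => sq_nonneg _)
    rw [Finset.sum_eq_zero_iff_of_nonneg (fun _ _ => sq_nonneg _)] at h0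
    have hz : ∀ m, U m = 0 := fun m => pow_eq_zero_iff (two_ne_zero) |>.1 (h0 m (Finset.mem_univ m))
    apply h
    rw [hz i, hz j]; ring
  have pV : 0 < ∑ m, V m ^ 2 := by
    by_contra hcon
    have h0 : ∑ m, V m ^ 2 = 0 := le_antisymm (not_lt.1 hcon) (Finset.sum_nonneg fun _ _ => sq_nonneg _)
    rw [Finset.sum_eq_zero_iff_of_nonneg (fun _ _ => sq_nonneg _)] at h0
    have hz : ∀ m, V m = 0 := fun m => pow_eq_zero_iff (two_ne_zero) |>.1 (h0 m (Finset.mem_univ m))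
    apply h
    rw [hz i, hz j]; ring
  refine ⟨pU, pV, ?_⟩
  by_contra hcon
  set g1 := ∑ m, U m ^ 2 with hg1
  set g3 := ∑ m, V m ^ 2 with hg3
  set g2 := ∑ m, U m * V m with hg2
  have key : ∑ m, (g1 * V m - g2 * U m) ^ 2 = g1 * (g1 * g3 - g2 ^ 2) := by
    rw [sum_sq_comb, ← hg1, ← hg2, ← hg3]; ring
  have h0 : ∑ m, (g1 * V m - g2 * U m) ^ 2 = 0 := by
    refine le_antisymm ?_ (Finset.sum_nonneg fun _ _ => sq_nonneg _)
    rw [key]
    exact mul_nonpos_of_nonneg_of_nonpos pU.le (not_lt.1 hcon)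
  rw [Finset.sum_eq_zero_iff_of_nonneg (fun _ _ => sq_nonneg _)] at h0
  have hz : ∀ m, g1 * V m - g2 * U m = 0 :=
    fun m => pow_eq_zero_iff (two_ne_zero) |>.1 (h0 m (Finset.mem_univ m))
  apply h
  have : g1 * (U i * V j - U j * V i) = 0 := by
    linear_combination U i * hz j - U j * hz i
  exact (mul_eq_zero.1 this).resolve_left pU.ne'

lemma five_of_coplanar {d : ℕ} (P1 P2 P3 P4 P5 : Fin d → ℤ)
    (n12 : P1 ≠ P2) (n13 : P1 ≠ P3) (n14 : P1 ≠ P4) (n15 : P1 ≠ P5) (n23 : P2 ≠ P3)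
    (n24 : P2 ≠ P4) (n25 : P2 ≠ P5) (n34 : P3 ≠ P4) (n35 : P3 ≠ P5) (n45 : P4 ≠ P5)
    (h2 : ∑ i, P1 i ^ 2 = ∑ i, P2 i ^ 2) (h3 : ∑ i, P1 i ^ 2 = ∑ i, P3 i ^ 2)
    (h4 : ∑ i, P1 i ^ 2 = ∑ i, P4 i ^ 2) (h5 : ∑ i, P1 i ^ 2 = ∑ i, P5 i ^ 2)
    (hcop : Coplanar ℝ ({toR P1, toR P2, toR P3, toR P4, toR P5} : Set (Fin d → ℝ))) :
    ∃ q a b a' b' g1 g2 g3 : ℤ, Five P1 P2 P3 P4 P5 q a b a' b' g1 g2 g3 := by
  have cst : ∀ P : Fin d → ℤ, ((∑ i, P i ^ 2 : ℤ) : ℝ) = ∑ i, toR P i ^ 2 := by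
    intro P; push_cast; rfl
  have r2 : ∑ i, toR P1 i ^ 2 = ∑ i, toR P2 i ^ 2 := by rw [← cst, ← cst, h2]
  have r3 : ∑ i, toR P1 i ^ 2 = ∑ i, toR P3 i ^ 2 := by rw [← cst, ← cst, h3]
  have hi := sphere_indep (toR P1) (toR P2) (toR P3) (fun h => n12 (toR_inj h))
    (fun h => n13 (toR_inj h)) (fun h => n23 (toR_inj h)) r2 r3
  have d4 : ¬ AffineIndependent ℝ ![toR P1, toR P2, toR P3, toR P4] := by
    refine not_indep_of_coplanar _ hcop _ ?_
    intro i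
    fin_cases i <;> simp
  have d5 : ¬ AffineIndependent ℝ ![toR P1, toR P2, toR P3, toR P5] := by
    refine not_indep_of_coplanar _ hcop _ ?_
    intro i
    fin_cases i <;> simp
  obtain ⟨s4, t4, f4⟩ := dep_four _ _ _ _ hi d4
  obtain ⟨s5, t5, f5⟩ := dep_four _ _ _ _ hi d5
  -- a nonzero minor
  have hmin : ∃ i j, (P2 i - P1 i) * (P3 j - P1 j) - (P2 j - P1 j) * (P3 i - P1 i) ≠ 0 := by
    by_contra hcon
    push Not at hcon
    obtain ⟨i, hi1⟩ := Function.ne_iff.1 n12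
    have hi2 : (P2 i : ℝ) - P1 i ≠ 0 := by
      intro h
      apply hi1
      have : (P2 i : ℝ) = P1 i := by linarith
      exact_mod_cast this.symm
    rw [affineIndependent_iff_not_collinear_set] at hi
    apply hi
    have : Collinear ℝ ({toR P1, toR P2, toR P3} : Set (Fin d → ℝ)) := by
      rw [collinear_iff_of_mem (p₀ := toR P1) (by simp)]
      refine ⟨toR P2 - toR P1, ?_⟩
      intro p hp
      simp only [Set.mem_insert_iff, Set.mem_singleton_iff] at hp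
      rcases hp with rfl | rfl | rfl
      · exact ⟨0, by simp⟩
      · exact ⟨1, by simp⟩
      · refine ⟨((P3 i : ℝ) - P1 i) / (P2 i - P1 i), ?_⟩
        funext m
        have hm := hcon i m
        have hm' : ((P2 i : ℝ) - P1 i) * (P3 m - P1 m) - (P2 m - P1 m) * (P3 i - P1 i) = 0 := by
          exact_mod_cast hm
        simp only [toR, vadd_eq_add, Pi.add_apply, Pi.smul_apply, Pi.sub_apply, smul_eq_mul]
        field_simp
        linear_combination hm'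
    exact this
  obtain ⟨i, j, hq⟩ := hmin
  -- integer relations
  have lift : ∀ (P : Fin d → ℤ) (s t : ℝ),
      toR P = toR P1 + s • (toR P2 - toR P1) + t • (toR P3 - toR P1) →
      ∀ m, ((P2 i - P1 i) * (P3 j - P1 j) - (P2 j - P1 j) * (P3 i - P1 i)) * (P m - P1 m)
        = ((P i - P1 i) * (P3 j - P1 j) - (P j - P1 j) * (P3 i - P1 i)) * (P2 m - P1 m)
          + ((P2 i - P1 i) * (P j - P1 j) - (P2 j - P1 j) * (P i - P1 i)) * (P3 m - P1 m) := by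
    intro P s t f m
    have fm : ∀ m, (P m : ℝ) = P1 m + s * (P2 m - P1 m) + t * (P3 m - P1 m) := by
      intro m
      have := congrFun f m
      simpa [toR] using this
    have fi := fm i
    have fj := fm j
    have fmm := fm m
    have : (((P2 i : ℝ) - P1 i) * (P3 j - P1 j) - (P2 j - P1 j) * (P3 i - P1 i)) * (P m - P1 m)
        = ((P i - P1 i) * (P3 j - P1 j) - (P j - P1 j) * (P3 i - P1 i)) * (P2 m - P1 m)
          + ((P2 i - P1 i) * (P j - P1 j) - (P2 j - P1 j) * (P i - P1 i)) * (P3 m - P1 m) := by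
      rw [fi, fj, fmm]; ring
    exact_mod_cast this
  have E4 := lift P4 s4 t4 f4
  have E5 := lift P5 s5 t5 f5
  obtain ⟨p1, p3, pg⟩ := gram_pos (fun m => P2 m - P1 m) (fun m => P3 m - P1 m) i j hq
  have C4 := conic_rel P1 P2 P3 P4 _ _ _ h2 h3 h4 E4
  have C5 := conic_rel P1 P2 P3 P5 _ _ _ h2 h3 h5 E5
  -- nondegeneracy
  have nd : ∀ (P : Fin d → ℤ) (a b : ℤ),
      (∀ m, ((P2 i - P1 i) * (P3 j - P1 j) - (P2 j - P1 j) * (P3 i - P1 i)) * (P m - P1 m)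
        = a * (P2 m - P1 m) + b * (P3 m - P1 m)) → P1 ≠ P → P2 ≠ P → P3 ≠ P →
      ¬ (a = 0 ∧ b = 0) ∧
      ¬ (a = (P2 i - P1 i) * (P3 j - P1 j) - (P2 j - P1 j) * (P3 i - P1 i) ∧ b = 0) ∧
      ¬ (a = 0 ∧ b = (P2 i - P1 i) * (P3 j - P1 j) - (P2 j - P1 j) * (P3 i - P1 i)) := by
    intro P a b hE m1 m2 m3
    refine ⟨?_, ?_, ?_⟩
    · rintro ⟨rfl, rfl⟩
      apply m1
      funext m
      have := hE m
      rw [zero_mul, zero_mul, add_zero] at this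
      have := (mul_eq_zero.1 this).resolve_left hq
      linarith
    · rintro ⟨rfl, rfl⟩
      apply m2
      funext m
      have := hE m
      have h' : ((P2 i - P1 i) * (P3 j - P1 j) - (P2 j - P1 j) * (P3 i - P1 i)) * (P m - P2 m)
          = 0 := by linear_combination this
      have := (mul_eq_zero.1 h').resolve_left hq
      linarith
    · rintro ⟨rfl, rfl⟩
      apply m3
      funext m
      have := hE m
      have h' : ((P2 i - P1 i) * (P3 j - P1 j) - (P2 j - P1 j) * (P3 i - P1 i)) * (P m - P3 m)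
          = 0 := by linear_combination this
      have := (mul_eq_zero.1 h').resolve_left hq
      linarith
  obtain ⟨a1, a2, a3⟩ := nd P4 _ _ E4 n14 n24 n34
  obtain ⟨b1, b2, b3⟩ := nd P5 _ _ E5 n15 n25 n35
  have hne := conic_ne hq p1 p3 (by linarith) C4 C5 a1 a2 a3 b1 b2 b3 (by
    rintro ⟨ha, hb⟩
    apply n45
    funext m
    have e4 := E4 m
    have e5 := E5 m
    rw [← ha, ← hb] at e5
    have h' : ((P2 i - P1 i) * (P3 j - P1 j) - (P2 j - P1 j) * (P3 i - P1 i)) * (P4 m - P5 m)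
        = 0 := by linear_combination e4 - e5
    have := (mul_eq_zero.1 h').resolve_left hq
    linarith)
  exact ⟨_, _, _, _, _, _, _, _, ⟨hq, ⟨i, j, rfl, rfl, rfl, rfl, rfl⟩, E4, E5, rfl, rfl, rfl, C4, C5,
    hne, pg⟩⟩

end Pool.Agent.MP_45c2e2_co.TT
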