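import Mathlib
import Pool.Agent.Lib.MP_45c2e2_co.TT.Block
import Pool.Agent.Lib.MP_45c2e2_co.TT.Geom
import Pool.Agent.Lib.MP_45c2e2_co.TT.Comb

/-!
The multi-prime construction in dimension `6 k`.
-/

set_option autoImplicit false

namespace Pool.Agent.MP_45c2e2_co.TT

open Pool.Agent.MP_45c2e2_co

/-- The statement proved about one prime in `block_exists`. -/
def BlockProp (l : ℕ) (Y : (Fin 2 → Fin 2 → ℤ) → (Fin 2 → ℤ)) : Prop :=
  (∀ x r, 1 ≤ Y x r ∧ Y x r ≤ l) ∧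
      ∀ (x1 x2 x3 x4 x5 : Fin 2 → Fin 2 → ℤ) (q a b a' b' g1 g2 g3 : ℤ),
        ¬ (l : ℤ) ∣ q → ¬ (l : ℤ) ∣ ((a * b) * (b' * (b' - q)) - (b * (b - q)) * (a' * b')) →
        ¬ (l : ℤ) ∣ g1 * g3 - g2 ^ 2 →
        a * (a - q) * g1 + a * b * (2 * g2) + b * (b - q) * g3 = 0 →
        a' * (a' - q) * g1 + a' * b' * (2 * g2) + b' * (b' - q) * g3 = 0 →
        (∀ c r, q * (x4 c r - x1 c r) = a * (x2 c r - x1 c r) + b * (x3 c r - x1 c r)) →
        (∀ c r, q * (x5 c r - x1 c r) = a' * (x2 c r - x1 c r) + b' * (x3 c r - x1 c r)) →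
        (∀ r, q * (Y x4 r - Y x1 r) = a * (Y x2 r - Y x1 r) + b * (Y x3 r - Y x1 r)) →
        (∀ r, q * (Y x5 r - Y x1 r) = a' * (Y x2 r - Y x1 r) + b' * (Y x3 r - Y x1 r)) →
        ∀ c r, (l : ℤ) ∣ (x2 c r - x1 c r)

section Points

variable {k M : ℕ}

/-- The free part of one block. -/
abbrev Bl (M : ℕ) : Type := Fin 2 → Fin 2 → Fin M

/-- The integer values. -/
def xi (x : Bl M) : Fin 2 → Fin 2 → ℤ := fun c r => (x c r : ℤ) + 1

lemma xi_bd (x : Bl M) (c r : Fin 2) : 1 ≤ xi x c r ∧ xi x c r ≤ M := by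
  unfold xi
  have := (x c r).2
  constructor
  · have := Int.natCast_nonneg (x c r : ℕ)
    linarith
  · have : ((x c r : ℕ) : ℤ) < M := by exact_mod_cast this
    linarith

lemma xi_inj {x y : Bl M} (h : ∀ c r, xi x c r = xi y c r) : x = y := by
  funext c r
  have := h c r
  unfold xi at this
  have h2 : ((x c r : ℕ) : ℤ) = (y c r : ℕ) := by linarith
  exact Fin.ext (by exact_mod_cast h2)

/-- The index set of the coordinates. -/
noncomputable def idx (k : ℕ) : Fin k × Fin 3 × Fin 2 ≃ Fin (6 * k) :=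
  Fintype.equivFinOfCardEq (by simp; ring)

/-- One block of the point. -/
def comp (Y : Fin k → (Fin 2 → Fin 2 → ℤ) → (Fin 2 → ℤ)) (x : Fin k → Bl M) (j : Fin k)
    (c : Fin 3) (r : Fin 2) : ℤ :=
  if c = 0 then xi (x j) 0 r else if c = 1 then xi (x j) 1 r else Y j (xi (x j)) r

/-- The point. -/
noncomputable def Pt (Y : Fin k → (Fin 2 → Fin 2 → ℤ) → (Fin 2 → ℤ)) (x : Fin k → Bl M) :
    Fin (6 * k) → ℤ :=
  fun m => comp Y x ((idx k).symm m).1 ((idx k).symm m).2.1 ((idx k).symm m).2.2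

lemma Pt_idx (Y : Fin k → (Fin 2 → Fin 2 → ℤ) → (Fin 2 → ℤ)) (x : Fin k → Bl M) (j : Fin k)
    (c : Fin 3) (r : Fin 2) : Pt Y x (idx k (j, c, r)) = comp Y x j c r := by
  unfold Pt
  rw [Equiv.symm_apply_apply]

lemma Pt_inj (Y : Fin k → (Fin 2 → Fin 2 → ℤ) → (Fin 2 → ℤ)) {x y : Fin k → Bl M}
    (h : Pt Y x = Pt Y y) : x = y := by
  funext j
  refine xi_inj ?_
  intro c r
  fin_cases c
  · have := congrFun h (idx k (j, 0, r))
    rw [Pt_idx, Pt_idx] at this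
    simpa [comp] using this
  · have := congrFun h (idx k (j, 1, r))
    rw [Pt_idx, Pt_idx] at this
    simpa [comp] using this

lemma Pt_bd (N : ℕ) (hM : M ≤ N) (Y : Fin k → (Fin 2 → Fin 2 → ℤ) → (Fin 2 → ℤ))
    (hY : ∀ j x r, 1 ≤ Y j x r ∧ Y j x r ≤ N) (x : Fin k → Bl M) (m : Fin (6 * k)) :
    1 ≤ Pt Y x m ∧ Pt Y x m ≤ N := by
  have hMN : (M : ℤ) ≤ N := by exact_mod_cast hM
  unfold Pt comp
  split_ifs
  · have := xi_bd (x ((idx k).symm m).1) 0 ((idx k).symm m).2.2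
    exact ⟨this.1, this.2.trans hMN⟩
  · have := xi_bd (x ((idx k).symm m).1) 1 ((idx k).symm m).2.2
    exact ⟨this.1, this.2.trans hMN⟩
  · exact hY _ _ _

end Points

lemma abs_bounds {N : ℤ} {U V U' V' : ℤ} (h1 : |U| ≤ N) (h2 : |V| ≤ N) (h3 : |U'| ≤ N)
    (h4 : |V'| ≤ N) : |U * V' - U' * V| ≤ 2 * N ^ 2 := by
  have hN : 0 ≤ N := (abs_nonneg U).trans h1
  calc |U * V' - U' * V| ≤ |U * V'| + |U' * V| := abs_sub _ _
    _ = |U| * |V'| + |U'| * |V| := by rw [abs_mul, abs_mul]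
    _ ≤ N * N + N * N :=
      add_le_add (mul_le_mul h1 h4 (abs_nonneg _) hN) (mul_le_mul h3 h2 (abs_nonneg _) hN)
    _ = 2 * N ^ 2 := by ring

/-- Size of the nonzero integer controlling the bad primes. -/
lemma size_bound {d N : ℕ} (P1 P2 P3 P4 P5 : Fin d → ℤ) (q a b a' b' g1 g2 g3 : ℤ)
    (hF : Five P1 P2 P3 P4 P5 q a b a' b' g1 g2 g3)
    (b1 : ∀ m, 1 ≤ P1 m ∧ P1 m ≤ N) (b2 : ∀ m, 1 ≤ P2 m ∧ P2 m ≤ N)
    (b3 : ∀ m, 1 ≤ P3 m ∧ P3 m ≤ N) (b4 : ∀ m, 1 ≤ P4 m ∧ P4 m ≤ N)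
    (b5 : ∀ m, 1 ≤ P5 m ∧ P5 m ≤ N) :
    |q * ((a * b) * (b' * (b' - q)) - (b * (b - q)) * (a' * b')) * (g1 * g3 - g2 ^ 2)|
      ≤ 128 * (d : ℤ) ^ 2 * (N : ℤ) ^ 14 := by
  have df : ∀ (P : Fin d → ℤ), (∀ m, 1 ≤ P m ∧ P m ≤ N) → ∀ m, |P m - P1 m| ≤ (N : ℤ) := by
    intro P hP m
    have := hP m
    have := b1 m
    rw [abs_le]
    constructor <;> linarith [(hP m).1, (hP m).2, (b1 m).1, (b1 m).2]
  obtain ⟨i, j, e1, e2, e3, e4, e5⟩ := hF.minor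
  have N0 : (0 : ℤ) ≤ N := Int.natCast_nonneg N
  have hq : |q| ≤ 2 * (N : ℤ) ^ 2 := by
    rw [e1]; exact abs_bounds (df P2 b2 i) (df P3 b3 i) (df P2 b2 j) (df P3 b3 j)
  have ha : |a| ≤ 2 * (N : ℤ) ^ 2 := by
    rw [e2]; exact abs_bounds (df P4 b4 i) (df P3 b3 i) (df P4 b4 j) (df P3 b3 j)
  have hb : |b| ≤ 2 * (N : ℤ) ^ 2 := by
    rw [e3]; exact abs_bounds (df P2 b2 i) (df P4 b4 i) (df P2 b2 j) (df P4 b4 j)
  have ha' : |a'| ≤ 2 * (N : ℤ) ^ 2 := by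
    rw [e4]; exact abs_bounds (df P5 b5 i) (df P3 b3 i) (df P5 b5 j) (df P3 b3 j)
  have hb' : |b'| ≤ 2 * (N : ℤ) ^ 2 := by
    rw [e5]; exact abs_bounds (df P2 b2 i) (df P5 b5 i) (df P2 b2 j) (df P5 b5 j)
  set K : ℤ := 2 * (N : ℤ) ^ 2 with hK
  have K0 : 0 ≤ K := by positivity
  have hbq : |b - q| ≤ 2 * K := (abs_sub _ _).trans (by linarith)
  have hbq' : |b' - q| ≤ 2 * K := (abs_sub _ _).trans (by linarith)
  have hA : |(a * b) * (b' * (b' - q)) - (b * (b - q)) * (a' * b')| ≤ 4 * K ^ 4 := by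
    refine (abs_sub _ _).trans ?_
    rw [abs_mul, abs_mul, abs_mul, abs_mul, abs_mul, abs_mul]
    have t1 : |a| * |b| * (|b'| * |b' - q|) ≤ (K * K) * (K * (2 * K)) :=
      mul_le_mul (mul_le_mul ha hb (abs_nonneg _) K0) (mul_le_mul hb' hbq' (abs_nonneg _) K0)
        (by positivity) (by positivity)
    have t2 : |b| * |b - q| * (|a'| * |b'|) ≤ (K * (2 * K)) * (K * K) :=
      mul_le_mul (mul_le_mul hb hbq (abs_nonneg _) K0) (mul_le_mul ha' hb' (abs_nonneg _) K0)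
        (by positivity) (by positivity)
    calc _ ≤ (K * K) * (K * (2 * K)) + (K * (2 * K)) * (K * K) := add_le_add t1 t2
      _ = 4 * K ^ 4 := by ring
  have hg1 : 0 ≤ g1 ∧ g1 ≤ d * (N : ℤ) ^ 2 := by
    rw [hF.hg1]
    constructor
    · exact Finset.sum_nonneg fun _ _ => sq_nonneg _
    · calc ∑ m, (P2 m - P1 m) ^ 2 ≤ ∑ _m : Fin d, (N : ℤ) ^ 2 :=
          Finset.sum_le_sum fun m _ => by
            rw [← sq_abs]
            exact pow_le_pow_left₀ (abs_nonneg _) (df P2 b2 m) 2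
        _ = d * (N : ℤ) ^ 2 := by simp
  have hg3 : 0 ≤ g3 ∧ g3 ≤ d * (N : ℤ) ^ 2 := by
    rw [hF.hg3]
    constructor
    · exact Finset.sum_nonneg fun _ _ => sq_nonneg _
    · calc ∑ m, (P3 m - P1 m) ^ 2 ≤ ∑ _m : Fin d, (N : ℤ) ^ 2 :=
          Finset.sum_le_sum fun m _ => by
            rw [← sq_abs]
            exact pow_le_pow_left₀ (abs_nonneg _) (df P3 b3 m) 2
        _ = d * (N : ℤ) ^ 2 := by simp
  have hgr : |g1 * g3 - g2 ^ 2| ≤ (d * (N : ℤ) ^ 2) * (d * (N : ℤ) ^ 2) := by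
    rw [abs_of_pos hF.hgram]
    have := mul_le_mul hg1.2 hg3.2 hg3.1 (by positivity)
    linarith [sq_nonneg g2]
  rw [abs_mul, abs_mul]
  calc |q| * |(a * b) * (b' * (b' - q)) - (b * (b - q)) * (a' * b')| * |g1 * g3 - g2 ^ 2|
      ≤ (K * (4 * K ^ 4)) * ((d * (N : ℤ) ^ 2) * (d * (N : ℤ) ^ 2)) :=
        mul_le_mul (mul_le_mul hq hA (abs_nonneg _) K0) hgr (abs_nonneg _) (by positivity)
    _ = 128 * (d : ℤ) ^ 2 * (N : ℤ) ^ 14 := by rw [hK]; ring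

/-- Five coplanar points on a common sphere have parameters which agree in all but 14 blocks. -/
lemma close_of_coplanar {k M : ℕ} (hM : 1 ≤ M) (l : Fin k → ℕ) (hp : ∀ j, (l j).Prime)
    (hinj : Function.Injective l) (hl : ∀ j, M < l j) (hlu : ∀ j, l j ≤ M * 2 ^ k)
    (hbig : 128 * (6 * k) ^ 2 * (M * 2 ^ k) ^ 14 < M ^ 15)
    (Y : Fin k → (Fin 2 → Fin 2 → ℤ) → (Fin 2 → ℤ)) (hY : ∀ j, BlockProp (l j) (Y j))
    (x1 x2 x3 x4 x5 : Fin k → Bl M) (n12 : x1 ≠ x2) (n13 : x1 ≠ x3) (n14 : x1 ≠ x4)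
    (n15 : x1 ≠ x5) (n23 : x2 ≠ x3) (n24 : x2 ≠ x4) (n25 : x2 ≠ x5) (n34 : x3 ≠ x4)
    (n35 : x3 ≠ x5) (n45 : x4 ≠ x5)
    (h2 : ∑ i, Pt Y x1 i ^ 2 = ∑ i, Pt Y x2 i ^ 2) (h3 : ∑ i, Pt Y x1 i ^ 2 = ∑ i, Pt Y x3 i ^ 2)
    (h4 : ∑ i, Pt Y x1 i ^ 2 = ∑ i, Pt Y x4 i ^ 2) (h5 : ∑ i, Pt Y x1 i ^ 2 = ∑ i, Pt Y x5 i ^ 2)
    (hcop : Coplanar ℝ ({toR (Pt Y x1), toR (Pt Y x2), toR (Pt Y x3), toR (Pt Y x4),
      toR (Pt Y x5)} : Set (Fin (6 * k) → ℝ))) :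
    hammingDist x1 x2 ≤ 14 := by
  obtain ⟨q, a, b, a', b', g1, g2, g3, hF⟩ := five_of_coplanar (Pt Y x1) (Pt Y x2) (Pt Y x3)
    (Pt Y x4) (Pt Y x5) (fun h => n12 (Pt_inj Y h)) (fun h => n13 (Pt_inj Y h))
    (fun h => n14 (Pt_inj Y h)) (fun h => n15 (Pt_inj Y h)) (fun h => n23 (Pt_inj Y h))
    (fun h => n24 (Pt_inj Y h)) (fun h => n25 (Pt_inj Y h)) (fun h => n34 (Pt_inj Y h))
    (fun h => n35 (Pt_inj Y h)) (fun h => n45 (Pt_inj Y h)) h2 h3 h4 h5 hcop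
  have hYb : ∀ j x r, 1 ≤ Y j x r ∧ Y j x r ≤ ((M * 2 ^ k : ℕ) : ℤ) := by
    intro j x r
    have := (hY j).1 x r
    refine ⟨this.1, this.2.trans ?_⟩
    exact_mod_cast hlu j
  have hMN : M ≤ M * 2 ^ k := Nat.le_mul_of_pos_right _ (by positivity)
  have bd := fun x => Pt_bd (M * 2 ^ k) hMN Y hYb x
  have hs := size_bound _ _ _ _ _ _ _ _ _ _ _ _ _ hF (bd x1) (bd x2) (bd x3) (bd x4) (bd x5)
  set R : ℤ := q * ((a * b) * (b' * (b' - q)) - (b * (b - q)) * (a' * b')) * (g1 * g3 - g2 ^ 2)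
    with hR
  have hR0 : R ≠ 0 := mul_ne_zero (mul_ne_zero hF.hq hF.hA) hF.hgram.ne'
  have hRM : R.natAbs < M ^ (14 + 1) := by
    have h6 : (R.natAbs : ℤ) ≤ 128 * ((6 * k : ℕ) : ℤ) ^ 2 * ((M * 2 ^ k : ℕ) : ℤ) ^ 14 := by
      rw [Int.natCast_natAbs]; exact hs
    have h7 : R.natAbs ≤ 128 * (6 * k) ^ 2 * (M * 2 ^ k) ^ 14 := by exact_mod_cast h6
    exact lt_of_le_of_lt h7 hbig
  have hbad := bad_count l hp hinj M 14 hM (fun j => (hl j).le) R hR0 hRM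
  refine le_trans ?_ hbad
  unfold hammingDist
  refine Finset.card_le_card ?_
  intro j hj
  rw [Finset.mem_filter] at hj ⊢
  refine ⟨Finset.mem_univ _, ?_⟩
  by_contra hnd
  apply hj.2
  -- the block j is good
  have nq : ¬ (l j : ℤ) ∣ q := fun h => hnd (Dvd.dvd.mul_right (Dvd.dvd.mul_right h _) _)
  have nA : ¬ (l j : ℤ) ∣ ((a * b) * (b' * (b' - q)) - (b * (b - q)) * (a' * b')) :=
    fun h => hnd (Dvd.dvd.mul_right (Dvd.dvd.mul_left h _) _)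
  have nG : ¬ (l j : ℤ) ∣ g1 * g3 - g2 ^ 2 := fun h => hnd (Dvd.dvd.mul_left h _)
  have e4 : ∀ c r, q * (comp Y x4 j c r - comp Y x1 j c r)
      = a * (comp Y x2 j c r - comp Y x1 j c r) + b * (comp Y x3 j c r - comp Y x1 j c r) := by
    intro c r
    have := hF.e4 (idx k (j, c, r))
    rwa [Pt_idx, Pt_idx, Pt_idx, Pt_idx] at this
  have e5 : ∀ c r, q * (comp Y x5 j c r - comp Y x1 j c r)
      = a' * (comp Y x2 j c r - comp Y x1 j c r) + b' * (comp Y x3 j c r - comp Y x1 j c r) := by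
    intro c r
    have := hF.e5 (idx k (j, c, r))
    rwa [Pt_idx, Pt_idx, Pt_idx, Pt_idx] at this
  have c0 : ∀ (x : Fin k → Bl M) (r : Fin 2), comp Y x j 0 r = xi (x j) 0 r := fun x r => by
    simp [comp]
  have c1 : ∀ (x : Fin k → Bl M) (r : Fin 2), comp Y x j 1 r = xi (x j) 1 r := fun x r => by
    simp [comp]
  have c2 : ∀ (x : Fin k → Bl M) (r : Fin 2), comp Y x j 2 r = Y j (xi (x j)) r := fun x r => by
    simp [comp]
  have hdv := (hY j).2 (xi (x1 j)) (xi (x2 j)) (xi (x3 j)) (xi (x4 j)) (xi (x5 j)) q a b a' b'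
    g1 g2 g3 nq nA nG hF.hG hF.hG'
    (by
      intro c r
      fin_cases c
      · have := e4 0 r
        rwa [c0, c0, c0, c0] at this
      · have := e4 1 r
        rwa [c1, c1, c1, c1] at this)
    (by
      intro c r
      fin_cases c
      · have := e5 0 r
        rwa [c0, c0, c0, c0] at this
      · have := e5 1 r
        rwa [c1, c1, c1, c1] at this)
    (by
      intro r
      have := e4 2 r
      rwa [c2, c2, c2, c2] at this)
    (by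
      intro r
      have := e5 2 r
      rwa [c2, c2, c2, c2] at this)
  refine (xi_inj ?_).symm
  intro c r
  have h8 := hdv c r
  have h9 : |xi (x2 j) c r - xi (x1 j) c r| < (l j : ℤ) := by
    have t1 := xi_bd (x1 j) c r
    have t2 := xi_bd (x2 j) c r
    have t3 : (M : ℤ) < l j := by exact_mod_cast hl j
    rw [abs_lt]
    constructor <;> linarith [t1.1, t1.2, t2.1, t2.2]
  have := Int.eq_zero_of_abs_lt_dvd h8 h9
  linarith

/-- The set of the multi-prime construction. -/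
lemma exists_set (k M : ℕ) (hM : 2 ≤ M) (hbig : 128 * (6 * k) ^ 2 * (M * 2 ^ k) ^ 14 < M ^ 15) :
    ∃ A : Finset (Fin (6 * k) → ℝ), InGrid (M * 2 ^ k) A ∧ NoFiveCoplanar A ∧
      M ^ (4 * k) ≤ (6 * k * (M * 2 ^ k) ^ 2 + 1) * (2 ^ k * M ^ 56 * A.card) := by
  classical
  obtain ⟨l, hp, hinj, hl, hlu⟩ := exists_primes k M (by omega)
  have hY : ∀ j, ∃ Y, BlockProp (l j) Y := by
    intro j
    haveI : Fact (l j).Prime := ⟨hp j⟩
    exact block_exists (l j) (lt_of_le_of_lt hM (hl j))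
  choose Y hY using hY
  have hMN : M ≤ M * 2 ^ k := Nat.le_mul_of_pos_right _ (by positivity)
  have hYb : ∀ j x r, 1 ≤ Y j x r ∧ Y j x r ≤ ((M * 2 ^ k : ℕ) : ℤ) := by
    intro j x r
    have := (hY j).1 x r
    refine ⟨this.1, this.2.trans ?_⟩
    exact_mod_cast hlu j
  have bd := fun x => Pt_bd (M * 2 ^ k) hMN Y hYb x
  haveI : Nonempty (Fin M) := ⟨⟨0, by omega⟩⟩
  have cB : Fintype.card (Bl M) = M ^ 4 := by
    simp only [Bl, Fintype.card_pi, Fintype.card_fin, Finset.prod_const, Finset.card_univ]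
    ring
  -- the sphere
  obtain ⟨r, hr, hfib⟩ := exists_fibre (Finset.univ : Finset (Fin k → Bl M))
    (Finset.Icc (0 : ℤ) ((6 * k * (M * 2 ^ k) ^ 2 : ℕ) : ℤ)) (fun x => ∑ i, Pt Y x i ^ 2)
    (by
      intro x _
      rw [Finset.mem_Icc]
      refine ⟨Finset.sum_nonneg fun _ _ => sq_nonneg _, ?_⟩
      calc ∑ i, Pt Y x i ^ 2 ≤ ∑ _i : Fin (6 * k), ((M * 2 ^ k : ℕ) : ℤ) ^ 2 :=
            Finset.sum_le_sum fun i _ =>
              pow_le_pow_left₀ (by linarith [(bd x i).1]) (bd x i).2 2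
        _ = ((6 * k * (M * 2 ^ k) ^ 2 : ℕ) : ℤ) := by
            rw [Finset.sum_const, Finset.card_univ, Fintype.card_fin, nsmul_eq_mul]
            push_cast; ring)
    ⟨0, Finset.mem_Icc.2 ⟨le_rfl, Int.natCast_nonneg _⟩⟩
  set S := (Finset.univ : Finset (Fin k → Bl M)).filter (fun x => ∑ i, Pt Y x i ^ 2 = r) with hS
  -- the code
  obtain ⟨T, hTS, hTR, hTc⟩ := exists_code S (fun x y => hammingDist x y ≤ 14)
    (fun a => by simp) (fun a b h => by rw [hammingDist_comm]; exact h) (2 ^ k * (M ^ 4) ^ 14)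
    (fun a _ => by
      have := ball_card (β := Bl M) k 14 a S
      rwa [cB] at this)
  have hTr : ∀ x ∈ T, ∑ i, Pt Y x i ^ 2 = r := fun x hx => (Finset.mem_filter.1 (hTS hx)).2
  have hinjP : Function.Injective (fun x : Fin k → Bl M => toR (Pt Y x)) :=
    fun x y h => Pt_inj Y (toR_inj h)
  refine ⟨T.image (fun x => toR (Pt Y x)), ?_, ?_, ?_⟩
  · intro p hp' i
    obtain ⟨x, -, rfl⟩ := Finset.mem_image.1 hp'
    have := bd x i
    refine ⟨(Pt Y x i).toNat, ?_, ?_, ?_⟩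
    · have := this.1
      omega
    · have h := this.2
      omega
    · have h0 : ((Pt Y x i).toNat : ℤ) = Pt Y x i := Int.toNat_of_nonneg (by linarith [this.1])
      have h1 := congrArg (fun z : ℤ => (z : ℝ)) h0
      simp only [Int.cast_natCast] at h1
      exact h1.symm
  · intro U hU hc hcop
    obtain ⟨p1, p2, p3, p4, p5, m12, m13, m14, m15, m23, m24, m25, m34, m35, m45, rfl⟩ :=
      card_five _ hc
    have g1 : p1 ∈ T.image (fun x => toR (Pt Y x)) := hU (by simp)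
    have g2 : p2 ∈ T.image (fun x => toR (Pt Y x)) := hU (by simp)
    have g3 : p3 ∈ T.image (fun x => toR (Pt Y x)) := hU (by simp)
    have g4 : p4 ∈ T.image (fun x => toR (Pt Y x)) := hU (by simp)
    have g5 : p5 ∈ T.image (fun x => toR (Pt Y x)) := hU (by simp)
    rw [Finset.mem_image] at g1 g2 g3 g4 g5
    obtain ⟨x1, t1, rfl⟩ := g1
    obtain ⟨x2, t2, rfl⟩ := g2
    obtain ⟨x3, t3, rfl⟩ := g3
    obtain ⟨x4, t4, rfl⟩ := g4
    obtain ⟨x5, t5, rfl⟩ := g5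
    have hcl := close_of_coplanar (by omega) l hp hinj hl hlu hbig Y hY x1 x2 x3 x4 x5
      (fun h => m12 (by rw [h])) (fun h => m13 (by rw [h])) (fun h => m14 (by rw [h]))
      (fun h => m15 (by rw [h])) (fun h => m23 (by rw [h])) (fun h => m24 (by rw [h]))
      (fun h => m25 (by rw [h])) (fun h => m34 (by rw [h])) (fun h => m35 (by rw [h]))
      (fun h => m45 (by rw [h]))
      (by rw [hTr x1 t1, hTr x2 t2]) (by rw [hTr x1 t1, hTr x3 t3])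
      (by rw [hTr x1 t1, hTr x4 t4]) (by rw [hTr x1 t1, hTr x5 t5]) (by simpa using hcop)
    exact hTR x1 t1 x2 t2 (fun h => m12 (by rw [h])) hcl
  · rw [Finset.card_image_of_injective _ hinjP]
    have e1 : (Finset.univ : Finset (Fin k → Bl M)).card = M ^ (4 * k) := by
      rw [Finset.card_univ, Fintype.card_pi, Finset.prod_const, cB, Finset.card_univ,
        Fintype.card_fin, ← pow_mul]
    have e2 : (Finset.Icc (0 : ℤ) ((6 * k * (M * 2 ^ k) ^ 2 : ℕ) : ℤ)).card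
        = 6 * k * (M * 2 ^ k) ^ 2 + 1 := by
      rw [Int.card_Icc]
      omega
    rw [e1, e2] at hfib
    refine hfib.trans ?_
    refine Nat.mul_le_mul_left _ ?_
    refine hTc.trans (le_of_eq ?_)
    rw [← pow_mul]

end Pool.Agent.MP_45c2e2_co.TT
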