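import Mathlib
import Pool.Agent.Lib.MP_45c2e2_co.TT.Main

/-!
From the construction to a lower bound for every dimension.
-/

set_option autoImplicit false

namespace Pool.Agent.MP_45c2e2_co.TT

open Pool.Agent.MP_45c2e2_co Module

lemma InGrid.mono' {d N N' : ℕ} (h : N ≤ N') {A : Finset (Fin d → ℝ)} (hA : InGrid N A) :
    InGrid N' A := by
  intro x hx i
  obtain ⟨k, k1, k2, k3⟩ := hA x hx i
  exact ⟨k, k1, k2.trans h, k3⟩

/-- One point. -/
lemma one_point (d N : ℕ) (hN : 1 ≤ N) :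
    ∃ A : Finset (Fin d → ℝ), InGrid N A ∧ NoFiveCoplanar A ∧ A.card = 1 := by
  refine ⟨{fun _ => 1}, ?_, ?_, Finset.card_singleton _⟩
  · intro x hx i
    rw [Finset.mem_singleton] at hx
    subst hx
    exact ⟨1, le_rfl, hN, by simp⟩
  · intro S hS hc
    have := Finset.card_le_card hS
    rw [hc, Finset.card_singleton] at this
    omega

/-- Adding constant coordinates. -/
lemma embed (m n N : ℕ) (hN : 1 ≤ N) (A : Finset (Fin m → ℝ)) (hA : InGrid N A)
    (h5 : NoFiveCoplanar A) :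
    ∃ B : Finset (Fin (m + n) → ℝ), InGrid N B ∧ NoFiveCoplanar B ∧ B.card = A.card := by
  classical
  let e : (Fin m → ℝ) → (Fin (m + n) → ℝ) := fun x => Fin.append x (fun _ => 1)
  have he : ∀ x, fstL m n (e x) = x := fun x => fstL_append x _
  have hinj : Function.Injective e := fun x y h => by rw [← he x, ← he y, h]
  refine ⟨A.image e, ?_, ?_, Finset.card_image_of_injective _ hinj⟩
  · intro y hy i
    obtain ⟨x, hx, rfl⟩ := Finset.mem_image.1 hy
    refine Fin.addCases (fun j => ?_) (fun j => ?_) i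
    · obtain ⟨k, k1, k2, k3⟩ := hA x hx j
      exact ⟨k, k1, k2, by simp only [e, Fin.append_left]; exact k3⟩
    · exact ⟨1, le_rfl, hN, by simp only [e, Fin.append_right]; simp⟩
  · intro S hS hc hcop
    have hS' : ∀ y ∈ S, e (fstL m n y) = y := by
      intro y hy
      obtain ⟨x, -, rfl⟩ := Finset.mem_image.1 (hS hy)
      rw [he]
    have hinj2 : Set.InjOn (fstL m n) (S : Set (Fin (m + n) → ℝ)) := by
      intro y hy z hz h
      rw [← hS' y hy, ← hS' z hz, h]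
    refine h5 (S.image (fstL m n)) ?_ ?_ ?_
    · intro x hx
      obtain ⟨y, hy, rfl⟩ := Finset.mem_image.1 hx
      obtain ⟨z, hz, rfl⟩ := Finset.mem_image.1 (hS hy)
      rw [he]
      exact hz
    · rw [Finset.card_image_of_injOn hinj2, hc]
    · rw [coplanar_iff'] at hcop ⊢
      rw [Finset.coe_image]
      exact (finrank_image_le (fstL m n) _).trans hcop

/-- The lower bound in dimension `6 k`. -/
lemma lower (k : ℕ) : ∃ c : ℝ, 0 < c ∧ ∀ N : ℕ, 1 ≤ N →
    ∃ A : Finset (Fin (6 * k) → ℝ), InGrid N A ∧ NoFiveCoplanar A ∧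
      c * (N : ℝ) ^ (4 * k - 58) ≤ A.card := by
  rcases le_or_gt (4 * k) 58 with hk | hk
  · refine ⟨1, one_pos, fun N hN => ?_⟩
    obtain ⟨A, a1, a2, a3⟩ := one_point (6 * k) N hN
    refine ⟨A, a1, a2, ?_⟩
    rw [a3, Nat.sub_eq_zero_of_le hk]
    simp
  obtain ⟨e, he⟩ : ∃ e, 4 * k = e + 58 := ⟨4 * k - 58, by omega⟩
  have he' : 4 * k - 58 = e := by omega
  rw [he']
  set M0 : ℕ := 128 * (6 * k) ^ 2 * 2 ^ (14 * k) + 2 with hM0
  set C : ℕ := (6 * k * 4 ^ k + 1) * 2 ^ k with hC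
  have C1 : 1 ≤ C := by
    rw [hC]
    exact Nat.mul_pos (by omega) (by positivity)
  set N1 : ℕ := M0 * 2 ^ k with hN1
  have hN1p : 1 ≤ N1 := by
    rw [hN1]; exact Nat.mul_pos (by omega) (by positivity)
  -- the constant
  have hN1R : (1 : ℝ) ≤ N1 := by exact_mod_cast hN1p
  have hCR : (1 : ℝ) ≤ C := by exact_mod_cast C1
  have hN1P : (0 : ℝ) < N1 := by linarith
  have hCP : (0 : ℝ) < C := by linarith
  clear_value N1 C
  refine ⟨1 / (C * (N1 : ℝ) ^ e * (2 ^ (k + 1)) ^ e), by positivity, fun N hN => ?_⟩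
  rcases lt_or_ge N N1 with hlt | hge
  · obtain ⟨A, a1, a2, a3⟩ := one_point (6 * k) N hN
    refine ⟨A, a1, a2, ?_⟩
    rw [a3, Nat.cast_one, div_mul_eq_mul_div, one_mul, div_le_one (by positivity)]
    have h1 : (N : ℝ) ^ e ≤ (N1 : ℝ) ^ e :=
      pow_le_pow_left₀ (by positivity) (by exact_mod_cast hlt.le) e
    have h2 : (1 : ℝ) ≤ (2 ^ (k + 1)) ^ e := one_le_pow₀ (one_le_pow₀ (by norm_num))
    calc (N : ℝ) ^ e ≤ 1 * (N1 : ℝ) ^ e * 1 := by linarith
      _ ≤ C * (N1 : ℝ) ^ e * (2 ^ (k + 1)) ^ e := by gcongr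
  · set M := N / 2 ^ k with hM
    have hMM : M0 ≤ M := by
      rw [hM, Nat.le_div_iff_mul_le (by positivity), ← hN1]
      exact hge
    have hMN : M * 2 ^ k ≤ N := Nat.div_mul_le_self N (2 ^ k)
    have hNM : N ≤ M * 2 ^ (k + 1) := by
      have h1 : N < (M + 1) * 2 ^ k := by
        rw [hM]
        have := Nat.lt_div_mul_add (a := N) (b := 2 ^ k) (by positivity)
        linarith
      have h2 : (M + 1) * 2 ^ k ≤ (2 * M) * 2 ^ k := Nat.mul_le_mul_right _ (by omega)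
      have h3 : (2 * M) * 2 ^ k = M * 2 ^ (k + 1) := by ring
      omega
    have hbig : 128 * (6 * k) ^ 2 * (M * 2 ^ k) ^ 14 < M ^ 15 := by
      have e1 : 128 * (6 * k) ^ 2 * (M * 2 ^ k) ^ 14
          = (128 * (6 * k) ^ 2 * 2 ^ (14 * k)) * M ^ 14 := by
        rw [mul_pow M, ← pow_mul, mul_comm k 14]; ring
      rw [e1, pow_succ' M 14]
      refine Nat.mul_lt_mul_of_pos_right ?_ (by
        have : 0 < M := by omega
        positivity)
      omega
    obtain ⟨A, a1, a2, a3⟩ := exists_set k M (by omega) hbig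
    refine ⟨A, InGrid.mono' hMN a1, a2, ?_⟩
    have hMp : 0 < M := by omega
    have h4 : M ^ (4 * k) ≤ C * M ^ 58 * A.card := by
      refine a3.trans ?_
      have e2 : 6 * k * (M * 2 ^ k) ^ 2 + 1 ≤ (6 * k * 4 ^ k + 1) * M ^ 2 := by
        have e3 : (M * 2 ^ k) ^ 2 = 4 ^ k * M ^ 2 := by
          rw [mul_pow, ← pow_mul, mul_comm k 2, pow_mul]; norm_num; ring
        rw [e3, add_mul, one_mul]
        have : 1 ≤ M ^ 2 := Nat.one_le_pow _ _ hMp
        have e4 : 6 * k * (4 ^ k * M ^ 2) = 6 * k * 4 ^ k * M ^ 2 := by ring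
        omega
      calc (6 * k * (M * 2 ^ k) ^ 2 + 1) * (2 ^ k * M ^ 56 * A.card)
          ≤ ((6 * k * 4 ^ k + 1) * M ^ 2) * (2 ^ k * M ^ 56 * A.card) :=
            Nat.mul_le_mul_right _ e2
        _ = C * M ^ 58 * A.card := by rw [hC]; ring
    have h5 : M ^ e ≤ C * A.card := by
      rw [he, pow_add] at h4
      have : M ^ 58 * M ^ e ≤ M ^ 58 * (C * A.card) := by
        calc M ^ 58 * M ^ e = M ^ e * M ^ 58 := by ring
          _ ≤ C * M ^ 58 * A.card := h4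
          _ = M ^ 58 * (C * A.card) := by ring
      exact Nat.le_of_mul_le_mul_left this (by positivity)
    have h6 : (M : ℝ) ^ e ≤ C * A.card := by exact_mod_cast h5
    have h7 : (N : ℝ) ≤ M * 2 ^ (k + 1) := by exact_mod_cast hNM
    have h8 : (1 : ℝ) ≤ (N1 : ℝ) ^ e := one_le_pow₀ hN1R
    rw [div_mul_eq_mul_div, one_mul, div_le_iff₀ (by positivity)]
    calc (N : ℝ) ^ e ≤ (M * 2 ^ (k + 1)) ^ e := pow_le_pow_left₀ (by positivity) h7 e
      _ = (M : ℝ) ^ e * (2 ^ (k + 1)) ^ e := mul_pow _ _ _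
      _ ≤ (C * A.card) * (2 ^ (k + 1)) ^ e := by gcongr
      _ = (C * A.card) * 1 * (2 ^ (k + 1)) ^ e := by ring
      _ ≤ (C * A.card) * (N1 : ℝ) ^ e * (2 ^ (k + 1)) ^ e :=
        mul_le_mul_of_nonneg_right (mul_le_mul_of_nonneg_left h8
          (mul_nonneg hCP.le (Nat.cast_nonneg _))) (pow_nonneg (pow_nonneg (by norm_num) _) _)
      _ = A.card * (C * (N1 : ℝ) ^ e * (2 ^ (k + 1)) ^ e) := by ring

/-- The lower bound in every dimension. -/
lemma lower_all (d : ℕ) : ∃ c : ℝ, 0 < c ∧ ∀ N : ℕ, 1 ≤ N →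
    ∃ A : Finset (Fin d → ℝ), InGrid N A ∧ NoFiveCoplanar A ∧
      c * (N : ℝ) ^ (2 * (d : ℝ) / 3 - 62) ≤ A.card := by
  obtain ⟨c, hc, h⟩ := lower (d / 6)
  refine ⟨min c 1, by positivity, fun N hN => ?_⟩
  obtain ⟨A, a1, a2, a3⟩ := h N hN
  have hd : 6 * (d / 6) + d % 6 = d := Nat.div_add_mod d 6
  have key : ∃ B : Finset (Fin d → ℝ), InGrid N B ∧ NoFiveCoplanar B ∧ B.card = A.card := by
    have := embed (6 * (d / 6)) (d % 6) N hN A a1 a2
    rwa [hd] at this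
  have hN1 : (1 : ℝ) ≤ N := by exact_mod_cast hN
  rcases le_or_gt (4 * (d / 6)) 58 with hk | hk
  · obtain ⟨B, b1, b2, b3⟩ := one_point d N hN
    refine ⟨B, b1, b2, ?_⟩
    rw [b3, Nat.cast_one]
    have h1 : (N : ℝ) ^ (2 * (d : ℝ) / 3 - 62) ≤ 1 := by
      refine Real.rpow_le_one_of_one_le_of_nonpos hN1 ?_
      have : d ≤ 92 := by omega
      have : (d : ℝ) ≤ 92 := by exact_mod_cast this
      linarith
    calc min c 1 * (N : ℝ) ^ (2 * (d : ℝ) / 3 - 62) ≤ 1 * 1 :=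
        mul_le_mul (min_le_right _ _) h1 (by positivity) (by norm_num)
      _ = 1 := one_mul 1
  · obtain ⟨B, b1, b2, b3⟩ := key
    refine ⟨B, b1, b2, ?_⟩
    rw [b3]
    refine le_trans ?_ a3
    refine mul_le_mul (min_le_left _ _) ?_ (by positivity) hc.le
    rw [← Real.rpow_natCast]
    refine Real.rpow_le_rpow_of_exponent_le hN1 ?_
    have h2 : 3 * (4 * (d / 6) - 58) + 184 ≥ 2 * d := by omega
    have h3 : (2 * d : ℝ) ≤ 3 * ((4 * (d / 6) - 58 : ℕ) : ℝ) + 184 := by exact_mod_cast h2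
    linarith

/-- Sets in the grid have at most `N ^ d` points. -/
lemma card_grid (d N : ℕ) (A : Finset (Fin d → ℝ)) (hA : InGrid N A) : A.card ≤ N ^ d := by
  classical
  have hsub : A ⊆ Fintype.piFinset (fun _ : Fin d => (Finset.Icc 1 N).image (fun k : ℕ => (k : ℝ))) := by
    intro x hx
    rw [Fintype.mem_piFinset]
    intro i
    obtain ⟨k, k1, k2, k3⟩ := hA x hx i
    rw [Finset.mem_image]
    exact ⟨k, Finset.mem_Icc.2 ⟨k1, k2⟩, k3.symm⟩
  refine (Finset.card_le_card hsub).trans (le_of_eq ?_)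
  rw [Fintype.card_piFinset, Finset.prod_const, Finset.card_image_of_injective _ Nat.cast_injective,
    Nat.card_Icc]
  simp

end Pool.Agent.MP_45c2e2_co.TT
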